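import Pool.Agent.Helper35.LS.Stg

set_option autoImplicit false

/-!
# The periodic chain of stages in which rows may be cut: period 5

Every point is fixed by all `X i` and `V i`, if some `X i` and some `V i` are not cut.
-/

namespace Pool.Agent.Helper35.LS

open Pool.Agent.TH821.Hex (Follows Stage Sec Sec.dual Sec.of_dual Sec.congr Sec.unique sec_or
  symm_lt_iff' symm_le_iff' s1_facts s2_facts s0_next s1_next s2_next s0_double z_next deg_fix)

variable {Ω : Type*} [CompleteLinearOrder Ω]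

/-- The chain. -/
structure Chn (X V W F G : ℕ → Ω ≃o Ω) : Prop where
  stage : ∀ i, Stg (X i) (V i) (W i) (F i) (G i)
  linkA : ∀ i y, G (i + 1) ((X (i + 1)).symm ((F (i + 1)).symm y)) =
    (W i).symm (G i ((X i).symm ((F i).symm y)))
  linkC : ∀ i y, W (i + 1) ((F (i + 1)).symm y) = (X i).symm ((F i).symm y)
  linkB : ∀ i y, (V (i + 1)).symm ((G (i + 1)).symm y) =
    (V i).symm ((G i).symm ((X i).symm y))

/-- The dual family. -/
def du (X : ℕ → Ω ≃o Ω) : ℕ → Ωᵒᵈ ≃o Ωᵒᵈ := fun i => (X i).dual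

theorem Chn.dual {X V W F G : ℕ → Ω ≃o Ω} (h : Chn X V W F G) :
    Chn (Ω := Ωᵒᵈ) (du X) (du V) (du W) (du F) (du G) :=
  ⟨fun i => (h.stage i).dual, fun i y => h.linkA i y, fun i y => h.linkC i y,
    fun i y => h.linkB i y⟩

/-- The first node function. -/
def nA (X F G : ℕ → Ω ≃o Ω) (i : ℕ) (y : Ω) : Ω := G i ((X i).symm ((F i).symm y))

/-- The second node function. -/
def nC (W F : ℕ → Ω ≃o Ω) (i : ℕ) (y : Ω) : Ω := W i ((F i).symm y)

/-- The third node function. -/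
def nB (V G : ℕ → Ω ≃o Ω) (i : ℕ) (y : Ω) : Ω := (V i).symm ((G i).symm y)

/-- The order at node `i` over the point `y`. -/
def At (X W F G : ℕ → Ω ≃o Ω) (i m : ℕ) (y : Ω) : Prop :=
  Sec m (nA X F G i y) (nC W F i y) y

section chain
variable {X V W F G : ℕ → Ω ≃o Ω}

theorem At.dual {i m : ℕ} {y : Ω} (h : At X W F G i m y) :
    At (Ω := Ωᵒᵈ) (du X) (du W) (du F) (du G) i (m + 3) y :=
  Sec.dual (Ω := Ω) (m := m) (a := nA X F G i y) (c := nC W F i y) (y := y) h

theorem At.of_dual {i m : ℕ} {y : Ω} (h : At (Ω := Ωᵒᵈ) (du X) (du W) (du F) (du G) i m y) :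
    At X W F G i (m + 3) y :=
  Sec.of_dual (Ω := Ω) (m := m) (a := nA X F G i y) (c := nC W F i y) (y := y) h

theorem At.congr {i m m' : ℕ} {y : Ω} (hm : m % 6 = m' % 6) (h : At X W F G i m y) :
    At X W F G i m' y := Sec.congr hm h

theorem At.unique {i m m' : ℕ} {y : Ω} (h : At X W F G i m y) (h' : At X W F G i m' y) :
    m % 6 = m' % 6 := Sec.unique h h'

theorem nA_eq (i : ℕ) (t : Ω) : nA X F G i (F i (X i t)) = G i t := by
  unfold nA; rw [OrderIso.symm_apply_apply, OrderIso.symm_apply_apply]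

theorem nC_eq (X : ℕ → Ω ≃o Ω) (i : ℕ) (t : Ω) :
    nC W F i (F i (X i t)) = W i (X i t) := by
  unfold nC; rw [OrderIso.symm_apply_apply]

theorem Chn.nA_succ (h : Chn X V W F G) (i : ℕ) (t : Ω) :
    nA X F G (i + 1) (F i (X i t)) = (W i).symm (G i t) := by
  have := h.linkA i (F i (X i t))
  rw [OrderIso.symm_apply_apply, OrderIso.symm_apply_apply] at this
  exact this

theorem Chn.nC_succ (h : Chn X V W F G) (i : ℕ) (t : Ω) :
    nC W F (i + 1) (F i (X i t)) = t := by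
  have := h.linkC i (F i (X i t))
  rw [OrderIso.symm_apply_apply, OrderIso.symm_apply_apply] at this
  exact this

theorem ex_t (i : ℕ) (y : Ω) : ∃ t, F i (X i t) = y :=
  ⟨(X i).symm ((F i).symm y), by rw [OrderIso.apply_symm_apply, OrderIso.apply_symm_apply]⟩

theorem at_bef {i m : ℕ} {t : Ω} :
    At X W F G i m (F i (X i t)) ↔ Bef (X i) (W i) (F i) (G i) m t := by
  unfold At Bef
  rw [nA_eq, nC_eq X]

theorem Chn.at_aft (h : Chn X V W F G) {i m : ℕ} {t : Ω} :
    At X W F G (i + 1) m (F i (X i t)) ↔ Aft (X i) (W i) (F i) (G i) m t := by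
  unfold At Aft
  rw [h.nA_succ, h.nC_succ]

/-- a stage is cut, or not. -/
theorem Chn.cases (h : Chn X V W F G) (i : ℕ) :
    Stage (X i) (V i) (W i) (F i) (G i) (one Ω) ∨ ((∀ v, X i v = v) ∨ ∀ v, V i v = v) := by
  rcases (h.stage i).fX with h1 | h1
  · rcases (h.stage i).gV with h2 | h2
    · exact Or.inl ((h.stage i).stage h1 h2)
    · exact Or.inr (Or.inr h2)
  · exact Or.inr (Or.inl h1)

/-- one step at a cut stage, from the orders 0, 1, 2. -/
theorem Chn.cut012 (h : Chn X V W F G) {i m : ℕ} {y : Ω} (hm : m % 6 ≤ 2)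
    (hc : (∀ v, X i v = v) ∨ ∀ v, V i v = v) (hy : At X W F G i m y) :
    At X W F G (i + 1) m y ∨ At X W F G (i + 1) (m + 1) y := by
  obtain ⟨t, rfl⟩ := ex_t (X := X) (F := F) i y
  rw [at_bef] at hy
  rw [h.at_aft, h.at_aft]
  rcases hc with hc | hc
  · exact cutX_step (h.stage i) hc hm hy
  · exact cutV_step (h.stage i) hc hm hy

/-- one step at a cut stage. -/
theorem Chn.cut (h : Chn X V W F G) {i m : ℕ} {y : Ω}
    (hc : (∀ v, X i v = v) ∨ ∀ v, V i v = v) (hy : At X W F G i m y) :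
    At X W F G (i + 1) m y ∨ At X W F G (i + 1) (m + 1) y := by
  rcases le_or_gt (m % 6) 2 with hm | hm
  · exact h.cut012 hm hc hy
  · rcases h.dual.cut012 (i := i) (m := m + 3) (by omega) hc hy.dual with h1 | h1
    · exact Or.inl (h1.of_dual.congr (by omega))
    · exact Or.inr (h1.of_dual.congr (by omega))

/-- one step at a stage which is not cut, from the orders 0, 1, 2. -/
theorem Chn.unc012 (h : Chn X V W F G) {i m : ℕ} {y : Ω} (hm : m % 6 ≤ 2)
    (hs : Stage (X i) (V i) (W i) (F i) (G i) (one Ω))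
    (hy : At X W F G i m y) :
    At X W F G (i + 1) m y ∨ At X W F G (i + 1) (m + 1) y ∨
      (m % 3 = 0 ∧ At X W F G (i + 1) (m + 2) y) := by
  obtain ⟨t, rfl⟩ := ex_t (X := X) (F := F) i y
  rw [at_bef] at hy
  rw [h.at_aft, h.at_aft, h.at_aft]
  unfold Bef at hy
  unfold Aft
  rcases hy with ⟨k, k1, k2⟩ | ⟨k, k1, k2⟩ | ⟨k, k1, k2⟩ | ⟨k, k1, k2⟩ | ⟨k, k1, k2⟩ | ⟨k, k1, k2⟩
  · obtain ⟨e1, e2⟩ := s0_next hs k1 k2
    rcases le_or_gt (F i (X i t)) t with h1 | h1
    · exact Or.inl (Or.inl ⟨k, e1, h1⟩)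
    · rcases le_or_gt ((W i).symm (G i t)) t with h2 | h2
      · exact Or.inr (Or.inl (Or.inr (Or.inl ⟨by omega, h2, h1⟩)))
      · exact Or.inr (Or.inr ⟨by omega, Or.inr (Or.inr (Or.inl ⟨by omega, h2, e1.le⟩))⟩)
  · obtain ⟨e1, e2⟩ := s1_next hs k1 k2
    rcases le_or_gt ((W i).symm (G i t)) t with h2 | h2
    · exact Or.inl (Or.inr (Or.inl ⟨k, h2, e1⟩))
    · exact Or.inr (Or.inl (Or.inr (Or.inr (Or.inl ⟨by omega, h2, e2⟩))))
  · obtain ⟨e1, e2, e3⟩ := s2_next hs k1 k2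
    rcases le_or_gt ((W i).symm (G i t)) (F i (X i t)) with h2 | h2
    · exact Or.inl (Or.inr (Or.inr (Or.inl ⟨k, e2, h2⟩)))
    · exact Or.inr (Or.inl (Or.inr (Or.inr (Or.inr (Or.inl ⟨by omega, e1, h2⟩)))))
  · omega
  · omega
  · omega

/-- one step. -/
theorem Chn.step (h : Chn X V W F G) {i m : ℕ} {y : Ω}
    (hy : At X W F G i m y) :
    At X W F G (i + 1) m y ∨ At X W F G (i + 1) (m + 1) y ∨
      (m % 3 = 0 ∧ At X W F G (i + 1) (m + 2) y) := by
  rcases h.cases i with hs | hc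
  · rcases le_or_gt (m % 6) 2 with hm | hm
    · exact h.unc012 hm hs hy
    · rcases h.dual.unc012 (i := i) (m := m + 3) (by omega) hs.dual hy.dual with
        h1 | h1 | ⟨h0, h1⟩
      · exact Or.inl (h1.of_dual.congr (by omega))
      · exact Or.inr (Or.inl (h1.of_dual.congr (by omega)))
      · exact Or.inr (Or.inr ⟨by omega, h1.of_dual.congr (by omega)⟩)
  · rcases h.cut hc hy with h1 | h1
    · exact Or.inl h1
    · exact Or.inr (Or.inl h1)

theorem Chn.step' (h : Chn X V W F G) {i m : ℕ} {y : Ω}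
    (hy : At X W F G i m y) :
    ∃ m', At X W F G (i + 1) m' y ∧ (m' = m ∨ m' = m + 1 ∨ (m % 3 = 0 ∧ m' = m + 2)) := by
  rcases h.step hy with h1 | h1 | ⟨h0, h1⟩
  · exact ⟨m, h1, Or.inl rfl⟩
  · exact ⟨m + 1, h1, Or.inr (Or.inl rfl)⟩
  · exact ⟨m + 2, h1, Or.inr (Or.inr ⟨h0, rfl⟩)⟩

/-- a double step from order 0. -/
theorem Chn.double (h : Chn X V W F G) {i m m' : ℕ} {y : Ω} (hm : m % 6 = 0)
    (hm' : m' % 6 = 2) (hy : At X W F G i m y) (hy' : At X W F G (i + 1) m' y) :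
    ∃ z, W i z = z ∧ z < X i z ∧ F i z ≤ y ∧ y < F i (X i z) := by
  rcases h.cases i with hs | hc
  · obtain ⟨t, rfl⟩ := ex_t (X := X) (F := F) i y
    rw [at_bef] at hy
    rw [h.at_aft] at hy'
    unfold Bef at hy
    unfold Aft at hy'
    have k1 : G i t < F i (X i t) ∧ F i (X i t) ≤ W i (X i t) := by
      rcases hy with ⟨k, k1, k2⟩ | ⟨k, k1, k2⟩ | ⟨k, k1, k2⟩ | ⟨k, k1, k2⟩ | ⟨k, k1, k2⟩ |
        ⟨k, k1, k2⟩
      · exact ⟨k1, k2⟩
      all_goals omega
    have k3 : t < (W i).symm (G i t) := by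
      rcases hy' with ⟨k, k1, k2⟩ | ⟨k, k1, k2⟩ | ⟨k, k1, k2⟩ | ⟨k, k1, k2⟩ | ⟨k, k1, k2⟩ |
        ⟨k, k1, k2⟩
      · omega
      · omega
      · exact k1
      all_goals omega
    exact s0_double hs k1.1 k1.2 k3
  · exfalso
    rcases h.cut hc hy with h1 | h1
    · have := h1.unique hy'
      omega
    · have := h1.unique hy'
      omega

/-- after a fixed point of `W` moved up by `X` the order is 1. -/
theorem Chn.at_z (h : Chn X V W F G) {i : ℕ} {z : Ω} (h1 : W i z = z)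
    (h2 : z < X i z) : At X W F G (i + 1) 1 (F i (X i z)) := by
  rw [h.at_aft]
  unfold Aft
  rcases h.cases i with hs | hX | hV
  · obtain ⟨e1, e2⟩ := z_next hs h1 h2
    exact Or.inr (Or.inl ⟨rfl, e1, e2⟩)
  · rw [hX] at h2
    exact absurd h2 (lt_irrefl _)
  · have := (h.stage i).prod z
    rw [h1, hV] at this
    exact absurd h2 (by rw [this]; exact lt_irrefl _)

/-- order 0: the second node function does not increase, and decreases if `V` is not cut. -/
theorem Chn.dec0 (h : Chn X V W F G) {i m : ℕ} {y : Ω} (hm : m % 6 = 0)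
    (hy : At X W F G i m y) : nC W F (i + 1) y ≤ nC W F i y ∧
      (Follows (V i) (G i) → nC W F (i + 1) y < nC W F i y) := by
  obtain ⟨t, rfl⟩ := ex_t (X := X) (F := F) i y
  rw [at_bef] at hy
  rw [h.nC_succ, nC_eq X]
  unfold Bef at hy
  have k1 : G i t < F i (X i t) ∧ F i (X i t) ≤ W i (X i t) := by
    rcases hy with ⟨k, k1, k2⟩ | ⟨k, k1, k2⟩ | ⟨k, k1, k2⟩ | ⟨k, k1, k2⟩ | ⟨k, k1, k2⟩ |
      ⟨k, k1, k2⟩
    · exact ⟨k1, k2⟩
    all_goals omega
  have key : Follows (V i) (G i) → t < W i (X i t) := by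
    intro hg
    rcases (h.stage i).fX with hf | hX
    · exact (s0_next ((h.stage i).stage hf hg) k1.1 k1.2).2
    · by_contra hcon
      rw [not_lt] at hcon
      have h1 : t ≤ V i t := by
        have := (V i).le_iff_le.mpr hcon
        rwa [(h.stage i).vt] at this
      have h2 : t ≤ G i t := hg.up t h1
      exact absurd (h2.trans_lt (k1.1.trans_le k1.2)) (not_lt.mpr hcon)
  refine ⟨?_, key⟩
  rcases (h.stage i).gV with hg | hV
  · exact (key hg).le
  · have := (h.stage i).vt t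
    rw [hV] at this
    rw [this]

theorem Chn.nB_succ (h : Chn X V W F G) (i : ℕ) (y : Ω) :
    nB V G (i + 1) y = nB V G i ((X i).symm y) := h.linkB i y

theorem nB_lt (i : ℕ) {u v : Ω} (huv : u < v) : nB V G i u < nB V G i v := by
  unfold nB
  rw [(V i).symm.lt_iff_lt, (G i).symm.lt_iff_lt]
  exact huv

/-- order 1 or 2, twice: the third node function does not increase, and decreases if `X` is not
cut. -/
theorem Chn.dec12 (h : Chn X V W F G) {i m : ℕ} {y : Ω} (hm : m % 6 = 1 ∨ m % 6 = 2)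
    (hy : At X W F G i m y) (hy' : At X W F G (i + 1) m y) :
    nB V G (i + 1) y ≤ nB V G i y ∧ (Follows (X i) (F i) → nB V G (i + 1) y < nB V G i y) := by
  have key : Follows (X i) (F i) → nB V G (i + 1) y < nB V G i y := by
    intro hf
    rw [h.nB_succ]
    apply nB_lt
    rw [symm_lt_iff']
    obtain ⟨t, rfl⟩ := ex_t (X := X) (F := F) i y
    rw [at_bef] at hy
    rw [h.at_aft] at hy'
    unfold Bef at hy
    unfold Aft at hy'
    have hx : t < X i t := by
      rcases (h.stage i).gV with hg | hV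
      · have hs := (h.stage i).stage hf hg
        rcases hy with ⟨k, k1, k2⟩ | ⟨k, k1, k2⟩ | ⟨k, k1, k2⟩ | ⟨k, k1, k2⟩ | ⟨k, k1, k2⟩ |
          ⟨k, k1, k2⟩
        · omega
        · exact (s1_facts hs k1 k2).1
        · rcases hy' with ⟨l, l1, l2⟩ | ⟨l, l1, l2⟩ | ⟨l, l1, l2⟩ | ⟨l, l1, l2⟩ | ⟨l, l1, l2⟩ |
            ⟨l, l1, l2⟩
          · omega
          · omega
          · exact (s2_next hs k1 k2).2.2 l2
          all_goals omega
        all_goals omega
      · have e2 : W i (X i t) = t := by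
          have := (h.stage i).vt t
          rwa [hV] at this
        rw [e2] at hy
        by_contra hcon
        rw [not_lt] at hcon
        have c1 : F i (X i t) ≤ X i t := hf.down _ ((X i).le_iff_le.mpr hcon)
        rcases hy with ⟨k, k1, k2⟩ | ⟨k, k1, k2⟩ | ⟨k, k1, k2⟩ | ⟨k, k1, k2⟩ | ⟨k, k1, k2⟩ |
          ⟨k, k1, k2⟩
        · omega
        · order
        · order
        all_goals omega
    rw [hf.comm, (F i).lt_iff_lt, (X i).lt_iff_lt]
    exact hx
  refine ⟨?_, key⟩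
  rcases (h.stage i).fX with hf | hX
  · exact (key hf).le
  · rw [h.nB_succ]
    have : (X i).symm y = y := by
      rw [OrderIso.symm_apply_eq]; exact (hX y).symm
    rw [this]

/-- The chain has period 5. -/
structure Per (X V W F G : ℕ → Ω ≃o Ω) : Prop where
  eX : ∀ i, X (i + 5) = X i
  eV : ∀ i, V (i + 5) = V i
  eW : ∀ i, W (i + 5) = W i
  eF : ∀ i, F (i + 5) = F i
  eG : ∀ i, G (i + 5) = G i

theorem Per.dual (h : Per X V W F G) :
    Per (Ω := Ωᵒᵈ) (du X) (du V) (du W) (du F) (du G) :=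
  ⟨fun i => congrArg OrderIso.dual (h.eX i), fun i => congrArg OrderIso.dual (h.eV i),
    fun i => congrArg OrderIso.dual (h.eW i), fun i => congrArg OrderIso.dual (h.eF i),
    fun i => congrArg OrderIso.dual (h.eG i)⟩

theorem Per.at_eq (hp : Per X V W F G) {i m : ℕ} {y : Ω} (h : At X W F G (i + 5) m y) :
    At X W F G i m y := by
  unfold At nA nC at *
  rw [hp.eX, hp.eW, hp.eF, hp.eG] at h
  exact h

theorem Per.eq_at (hp : Per X V W F G) {i m : ℕ} {y : Ω} (h : At X W F G i m y) :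
    At X W F G (i + 5) m y := by
  unfold At nA nC at *
  rw [hp.eX, hp.eW, hp.eF, hp.eG]
  exact h

theorem Per.const (hp : Per X V W F G) {j m : ℕ} {y : Ω}
    (hc : ∀ l, l < 5 → At X W F G (j + l) m y) : ∀ l, At X W F G (j + l) m y := by
  intro l
  induction l using Nat.strong_induction_on with
  | _ l ih =>
    rcases lt_or_ge l 5 with h1 | h1
    · exact hc l h1
    · have := hp.eq_at (ih (l - 5) (by omega))
      rwa [show j + (l - 5) + 5 = j + l by omega] at this

/-- Some `X i` and some `V i` are not cut. -/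
structure Unc (X V F G : ℕ → Ω ≃o Ω) : Prop where
  x : ∃ i, Follows (X i) (F i)
  v : ∃ i, Follows (V i) (G i)

theorem Unc.dual (h : Unc X V F G) : Unc (Ω := Ωᵒᵈ) (du X) (du V) (du F) (du G) :=
  ⟨h.x.imp fun _ => Follows.dual, h.v.imp fun _ => Follows.dual⟩

theorem shift_eq {A : Type*} {Y : ℕ → A} (h : ∀ i, Y (i + 5) = Y i) (i : ℕ) :
    ∀ k, Y (i + 5 * k) = Y i
  | 0 => rfl
  | k + 1 => by rw [show i + 5 * (k + 1) = i + 5 * k + 5 by ring, h, shift_eq h i k]

/-- no strictly decreasing step in a nonincreasing sequence of period 5. -/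
theorem no_dec {u : ℕ → Ω} {j : ℕ} (h5 : ∀ i, u (i + 5) = u i)
    (hle : ∀ l, u (j + l + 1) ≤ u (j + l)) {i : ℕ} (hij : j ≤ i) (hlt : u (i + 1) < u i) :
    False := by
  obtain ⟨l, rfl⟩ := Nat.exists_eq_add_of_le hij
  have h1 := hle (l + 1)
  have h2 := hle (l + 2)
  have h3 := hle (l + 3)
  have h4 := hle (l + 4)
  have h6 := h5 (j + l)
  simp only [← Nat.add_assoc] at h1 h2 h3 h4 h6
  have e1 : j + l + 1 + 1 = j + l + 2 := rfl
  have e2 : j + l + 2 + 1 = j + l + 3 := rfl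
  have e3 : j + l + 3 + 1 = j + l + 4 := rfl
  have e4 : j + l + 4 + 1 = j + l + 5 := rfl
  rw [e1] at h1
  rw [e2] at h2
  rw [e3] at h3
  rw [e4] at h4
  rw [h6] at h4
  exact absurd hlt (not_lt.mpr (h4.trans (h3.trans (h2.trans h1))))

theorem Chn.not_const012 (h : Chn X V W F G) (hp : Per X V W F G) (hu : Unc X V F G)
    {j m : ℕ} {y : Ω} (hm : m % 6 ≤ 2) (hc : ∀ l, At X W F G (j + l) m y) :
    False := by
  rcases Nat.eq_zero_or_pos (m % 6) with h0 | h0
  · obtain ⟨i, hi⟩ := hu.v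
    refine no_dec (u := fun i => nC W F i y) (j := j) (i := i + 5 * j) ?_ ?_ (by omega) ?_
    · intro i
      show nC W F (i + 5) y = nC W F i y
      unfold nC; rw [hp.eW, hp.eF]
    · intro l
      exact (h.dec0 h0 (hc l)).1
    · have h1 := hc (i + 5 * j - j)
      rw [show j + (i + 5 * j - j) = i + 5 * j by omega] at h1
      refine (h.dec0 h0 h1).2 ?_
      rw [shift_eq hp.eV, shift_eq hp.eG]
      exact hi
  · have hm' : m % 6 = 1 ∨ m % 6 = 2 := by omega
    obtain ⟨i, hi⟩ := hu.x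
    refine no_dec (u := fun i => nB V G i y) (j := j) (i := i + 5 * j) ?_ ?_ (by omega) ?_
    · intro i
      show nB V G (i + 5) y = nB V G i y
      unfold nB; rw [hp.eV, hp.eG]
    · intro l
      exact (h.dec12 hm' (hc l) (hc (l + 1))).1
    · have h1 := hc (i + 5 * j - j)
      rw [show j + (i + 5 * j - j) = i + 5 * j by omega] at h1
      have h2 := hc (i + 5 * j - j + 1)
      rw [show j + (i + 5 * j - j + 1) = i + 5 * j + 1 by omega] at h2
      refine (h.dec12 hm' h1 h2).2 ?_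
      rw [shift_eq hp.eX, shift_eq hp.eF]
      exact hi

theorem Chn.not_const (h : Chn X V W F G) (hp : Per X V W F G) (hu : Unc X V F G)
    {j m : ℕ} {y : Ω} (hc : ∀ l, l < 5 → At X W F G (j + l) m y) : False := by
  have hc' := hp.const hc
  rcases le_or_gt (m % 6) 2 with hm | hm
  · exact h.not_const012 hp hu hm hc'
  · exact h.dual.not_const012 hp.dual hu.dual (j := j) (m := m + 3) (y := y) (by omega)
      (fun l => (hc' l).dual)

/-- A walk in which no double step can occur. -/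
theorem Chn.no_double (h : Chn X V W F G)
    (hu : ∀ i z, W i z = z → ¬ z < X i z) (hd : ∀ i z, W i z = z → ¬ X i z < z)
    {i m : ℕ} {y : Ω} (hy : At X W F G i m y) :
    At X W F G (i + 1) m y ∨ At X W F G (i + 1) (m + 1) y := by
  rcases h.step hy with h1 | h1 | ⟨h0, h1⟩
  · exact Or.inl h1
  · exact Or.inr h1
  · exfalso
    rcases (by omega : m % 6 = 0 ∨ m % 6 = 3) with h2 | h2
    · obtain ⟨z, z1, z2, _, _⟩ := h.double h2 (by omega) hy h1
      exact hu i z z1 z2
    · obtain ⟨z, z1, z2, _, _⟩ := h.dual.double (m := m + 3) (m' := m + 2 + 3) (by omega)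
        (by omega) hy.dual h1.dual
      exact hd i z z1 z2

theorem Chn.walk (h : Chn X V W F G)
    (hu : ∀ i z, W i z = z → ¬ z < X i z) (hd : ∀ i z, W i z = z → ¬ X i z < z)
    {i m : ℕ} {y : Ω} (hy : At X W F G i m y) :
    ∀ k, ∃ m', m ≤ m' ∧ m' ≤ m + k ∧ At X W F G (i + k) m' y
  | 0 => ⟨m, le_rfl, le_rfl, hy⟩
  | k + 1 => by
    obtain ⟨m', e1, e2, e3⟩ := h.walk hu hd hy k
    rcases h.no_double hu hd e3 with h1 | h1
    · exact ⟨m', e1, by omega, h1⟩
    · exact ⟨m' + 1, by omega, by omega, h1⟩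

theorem Chn.walk_const (h : Chn X V W F G)
    (hu : ∀ i z, W i z = z → ¬ z < X i z) (hd : ∀ i z, W i z = z → ¬ X i z < z)
    (hp : Per X V W F G) {i m : ℕ} {y : Ω} (hy : At X W F G i m y) {k : ℕ} (hk : k ≤ 5) :
    At X W F G (i + k) m y := by
  obtain ⟨m1, e1, e2, e3⟩ := h.walk hu hd hy k
  obtain ⟨m2, d1, d2, d3⟩ := h.walk hu hd e3 (5 - k)
  rw [show i + k + (5 - k) = i + 5 by omega] at d3
  have d4 : m2 % 6 = m % 6 := d3.unique (hp.eq_at hy)
  have d5 : m1 = m := by omega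
  rw [d5] at e3
  exact e3

theorem Chn.no_at (h : Chn X V W F G)
    (hu : ∀ i z, W i z = z → ¬ z < X i z) (hd : ∀ i z, W i z = z → ¬ X i z < z)
    (hp : Per X V W F G) (hU : Unc X V F G) {i m : ℕ} {y : Ω} :
    ¬ At X W F G i m y := fun hy =>
  h.not_const hp hU (fun _ hl => h.walk_const hu hd hp hy (by omega))

/-- period 5: the walk from order 1. -/
theorem Chn.per5_path (h : Chn X V W F G) (hp : Per X V W F G) (hU : Unc X V F G)
    {i : ℕ} {y : Ω} (hy : At X W F G i 1 y) :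
    At X W F G (i + 1) 2 y ∧ At X W F G (i + 2) 3 y ∧ At X W F G (i + 3) 5 y := by
  obtain ⟨m1, h1, e1⟩ := h.step' hy
  obtain ⟨m2, h2, e2⟩ := h.step' h1
  obtain ⟨m3, h3, e3⟩ := h.step' h2
  obtain ⟨m4, h4, e4⟩ := h.step' h3
  obtain ⟨m5, h5, e5⟩ := h.step' h4
  have e6 : m5 % 6 = 1 := h5.unique (hp.eq_at hy)
  rcases (by omega : (m1 = 1 ∧ m2 = 1 ∧ m3 = 1 ∧ m4 = 1 ∧ m5 = 1) ∨
    (m1 = 2 ∧ m2 = 3 ∧ m3 = 5 ∧ m4 = 6 ∧ m5 = 7)) with ⟨a1, a2, a3, a4, a5⟩ |
    ⟨a1, a2, a3, a4, a5⟩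
  · subst a1 a2 a3 a4 a5
    exfalso
    refine h.not_const hp hU (j := i) (m := 1) (y := y) ?_
    intro l hl
    interval_cases l
    · exact hy
    · exact h1
    · exact h2
    · exact h3
    · exact h4
  · subst a1 a2 a3 a4 a5
    exact ⟨h1, h2, h3⟩

/-- order 2: `y ≤ X y`. -/
theorem Chn.up2 (h : Chn X V W F G) {i m : ℕ} {y : Ω} (hm : m % 6 = 2)
    (hy : At X W F G i m y) : y ≤ X i y := by
  rcases (h.stage i).fX with hf | hX
  · obtain ⟨t, rfl⟩ := ex_t (X := X) (F := F) i y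
    rw [at_bef] at hy
    unfold Bef at hy
    have k : W i (X i t) < G i t ∧ G i t ≤ F i (X i t) := by
      rcases hy with ⟨k, k1, k2⟩ | ⟨k, k1, k2⟩ | ⟨k, k1, k2⟩ | ⟨k, k1, k2⟩ | ⟨k, k1, k2⟩ |
        ⟨k, k1, k2⟩
      · omega
      · omega
      · exact ⟨k1, k2⟩
      all_goals omega
    have hx : t ≤ X i t := by
      rcases (h.stage i).gV with hg | hV
      · exact (s2_facts ((h.stage i).stage hf hg) k.1 k.2).1
      · have e2 : W i (X i t) = t := by
          have := (h.stage i).vt t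
          rwa [hV] at this
        rw [e2] at k
        by_contra hcon
        rw [not_le] at hcon
        have c1 : F i (X i t) ≤ X i t := hf.down _ ((X i).le_iff_le.mpr hcon.le)
        exact absurd (k.1.trans_le (k.2.trans c1)) (not_lt.mpr hcon.le)
    rw [hf.comm, (F i).le_iff_le, (X i).le_iff_le]
    exact hx
  · exact (hX y).ge

/-- a stage with a special point is not cut. -/
theorem Chn.spec_comm (h : Chn X V W F G) {i : ℕ} {z : Ω} (h2 : z < X i z) (u : Ω) :
    X i (F i u) = F i (X i u) := by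
  rcases (h.stage i).fX with hf | hX
  · exact hf.comm u
  · rw [hX] at h2
    exact absurd h2 (lt_irrefl _)

/-- period 5: from an up fixed point at stage `i` to a down fixed point at stage `i + 3`. -/
theorem Chn.nest (h : Chn X V W F G) (hp : Per X V W F G) (hU : Unc X V F G) {i : ℕ} {z : Ω}
    (hz : W i z = z) (hx : z < X i z) :
    ∃ z', W (i + 3) z' = z' ∧ X (i + 3) z' < z' ∧
      F (i + 3) (X (i + 3) z') < F i z ∧ F i (X i z) ≤ F (i + 3) z' := by
  have h1 := h.at_z hz hx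
  obtain ⟨h2, h3, h4⟩ := h.per5_path hp hU h1
  obtain ⟨z', z1, z2, z3, z4⟩ := h.dual.double (i := i + 3) (m := 3 + 3) (m' := 5 + 3)
    (y := F i (X i z)) rfl rfl (At.dual h3) (At.dual h4)
  have z1 : W (i + 3) z' = z' := z1
  have z2 : X (i + 3) z' < z' := z2
  have z3 : F i (X i z) ≤ F (i + 3) z' := z3
  have z4 : F (i + 3) (X (i + 3) z') < F i (X i z) := z4
  refine ⟨z', z1, z2, ?_, z3⟩
  have k1 := h.dual.at_z (i := i + 3) (z := z') z1 z2
  obtain ⟨k2, _, _⟩ := h.dual.per5_path hp.dual hU.dual k1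
  have k3 := hp.dual.at_eq (i := i) k2
  have k4 := h.dual.up2 rfl k3
  have k5 : X i (F (i + 3) (X (i + 3) z')) ≤ F (i + 3) (X (i + 3) z') := k4
  by_contra hcon
  rw [not_lt] at hcon
  have k6 : X i (F i z) ≤ F (i + 3) (X (i + 3) z') := ((X i).le_iff_le.mpr hcon).trans k5
  rw [h.spec_comm hx] at k6
  exact absurd z4 (not_lt.mpr k6)

theorem Chn.nest_dual (h : Chn X V W F G) (hp : Per X V W F G) (hU : Unc X V F G) {i : ℕ}
    {z : Ω} (hz : W i z = z) (hx : X i z < z) :
    ∃ z', W (i + 3) z' = z' ∧ z' < X (i + 3) z' ∧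
      F i z < F (i + 3) (X (i + 3) z') ∧ F (i + 3) z' ≤ F i (X i z) :=
  h.dual.nest hp.dual hU.dual hz hx

theorem Chn.per5_up (h : Chn X V W F G) (hp : Per X V W F G) (hU : Unc X V F G) (i : ℕ)
    (z : Ω) (hz : W i z = z) : ¬ z < X i z := by
  intro hx
  obtain ⟨z1, a1, b1, c1, d1⟩ := h.nest hp hU hz hx
  obtain ⟨z2, a2, b2, c2, d2⟩ := h.nest_dual hp hU a1 b1
  obtain ⟨z3, a3, b3, c3, d3⟩ := h.nest hp hU a2 b2
  obtain ⟨z4, a4, b4, c4, d4⟩ := h.nest_dual hp hU a3 b3
  obtain ⟨z5, a5, b5, c5, d5⟩ := h.nest hp hU a4 b4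
  have e1 : F (i + 3 + 3 + 3 + 3 + 3) (X (i + 3 + 3 + 3 + 3 + 3) z5) < F i z :=
    ((c5.trans_le d4).trans c3).trans_le d2 |>.trans c1
  have e2 : F i (X i z) < F (i + 3 + 3 + 3 + 3 + 3) z5 :=
    ((d1.trans_lt c2).trans_le d3 |>.trans c4).trans_le d5
  have eX : X (i + 3 + 3 + 3 + 3 + 3) = X i := by
    rw [show i + 3 + 3 + 3 + 3 + 3 = i + 5 + 5 + 5 by omega, hp.eX, hp.eX, hp.eX]
  have eF : F (i + 3 + 3 + 3 + 3 + 3) = F i := by
    rw [show i + 3 + 3 + 3 + 3 + 3 = i + 5 + 5 + 5 by omega, hp.eF, hp.eF, hp.eF]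
  rw [eX, eF, (F i).lt_iff_lt] at e1
  rw [eF, (F i).lt_iff_lt] at e2
  have e3 : X i (X i z) < X i z5 := (X i).lt_iff_lt.mpr e2
  have e4 : X i z < X i (X i z) := (X i).lt_iff_lt.mpr hx
  exact lt_irrefl _ (((e4.trans e3).trans e1).trans hx)

/-- if `y = a = c` then `X` and `V` fix `y`. -/
theorem Chn.deg (h : Chn X V W F G) {i : ℕ} {y : Ω} (e1 : nA X F G i y = y)
    (e2 : nC W F i y = y) : X i y = y ∧ V i y = y := by
  obtain ⟨t, rfl⟩ := ex_t (X := X) (F := F) i y
  rw [nA_eq] at e1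
  rw [nC_eq X] at e2
  rcases (h.stage i).fX with hf | hX
  · rcases (h.stage i).gV with hg | hV
    · obtain ⟨f1, f2, _⟩ := deg_fix ((h.stage i).stage hf hg) e1 e2
      have f4 : F i t = t := hf.fix f1
      rw [f1, f4]
      exact ⟨f1, f2⟩
    · have e3 : W i (X i t) = t := by
        have := (h.stage i).vt t
        rwa [hV] at this
      rw [e3] at e2
      have f1 : X i t = t := by
        rcases lt_trichotomy t (X i t) with h1 | h1 | h1
        · have := hf.up _ ((X i).le_iff_le.mpr h1.le)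
          exact absurd (h1.trans_le this) (by rw [← e2]; exact lt_irrefl _)
        · exact h1.symm
        · have := hf.down _ ((X i).le_iff_le.mpr h1.le)
          exact absurd (this.trans_lt h1) (by rw [← e2]; exact lt_irrefl _)
      rw [← e2]
      exact ⟨f1, hV _⟩
  · rcases (h.stage i).gV with hg | hV
    · refine ⟨hX _, ?_⟩
      rw [hX] at e1 e2 ⊢
      have e3 : V i (W i t) = t := by
        have := (h.stage i).vt t
        rwa [hX] at this
      have f1 : V i t = t := by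
        rcases lt_trichotomy t (V i t) with h1 | h1 | h1
        · have c1 : W i t < t := by rw [← (V i).lt_iff_lt, e3]; exact h1
          have c2 := hg.up t h1.le
          exact absurd (c1.trans_le c2) (by rw [e1, e2]; exact lt_irrefl _)
        · exact h1.symm
        · have c1 : t < W i t := by rw [← (V i).lt_iff_lt, e3]; exact h1
          have c2 := hg.down t h1.le
          exact absurd (c2.trans_lt c1) (by rw [e1, e2]; exact lt_irrefl _)
      have f2 : G i t = t := hg.fix f1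
      rw [← e1, f2]
      exact f1
    · exact ⟨hX _, hV _⟩

/-- Everything is fixed. -/
theorem Chn.fixed (h : Chn X V W F G) (hp : Per X V W F G) (hU : Unc X V F G) (i : ℕ)
    (y : Ω) : X i y = y ∧ V i y = y := by
  have hno : ∀ m, ¬ At X W F G i m y := fun m =>
    h.no_at (h.per5_up hp hU) (fun i z hz => h.dual.per5_up hp.dual hU.dual i z hz) hp hU
  rcases sec_or (nA X F G i y) (nC W F i y) y with ⟨e1, e2⟩ | ⟨m, hm⟩
  · exact h.deg e1 e2
  · exact absurd hm (hno m)

end chain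

end Pool.Agent.Helper35.LS
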