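import Pool.Agent.Helper35.LS.Chn
import Pool.Agent.TH821.ChainGroup

set_option autoImplicit false

/-!
# The closed chain of length five in a left-ordered group
-/

namespace Pool.Agent.Helper35.LS

open Pool.Agent.W705.Borr Pool.Agent.TH821.Hex
open Pool.Agent.TH821.Chain (act_inv)

section act
variable {H : Type*} [Group H] [LinearOrder H] (hinv : ∀ a b c : H, a ≤ b ↔ c * a ≤ c * b)

/-- `J` commutes with `V` and moves every point in the direction of `V`, at least as far. -/
structure Ok (V J : H) : Prop where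
  comm : V * J = J * V
  up : ∀ u, u ≤ act hinv V u → act hinv V u ≤ act hinv J u
  down : ∀ u, act hinv V u ≤ u → act hinv J u ≤ act hinv V u

variable {hinv}

theorem Ok.follows {V J : H} (h : Ok hinv V J) :
    Follows (act hinv V) (act hinv (J * V⁻¹)) := by
  have hc : V * (J * V⁻¹) = (J * V⁻¹) * V := by
    calc V * (J * V⁻¹) = (V * J) * V⁻¹ := by group
      _ = (J * V⁻¹) * V := by rw [h.comm]; group
  have e : ∀ u, act hinv (J * V⁻¹) u = act hinv J (act hinv V⁻¹ u) := act_mul hinv _ _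
  have e1 : ∀ u, act hinv V (act hinv V⁻¹ u) = u := by
    intro u
    rw [← act_mul, mul_inv_cancel, act_one]
  have e2 : ∀ u, act hinv V⁻¹ (act hinv V u) = u := by
    intro u
    rw [← act_mul, inv_mul_cancel, act_one]
  refine ⟨?_, ?_, ?_⟩
  · intro u
    rw [← act_mul, ← act_mul, hc]
  · intro u hu
    rw [e]
    have h1 : act hinv V⁻¹ u ≤ act hinv V (act hinv V⁻¹ u) := by
      rw [e1, ← (act hinv V).le_iff_le, e1]; exact hu
    have := h.up _ h1
    rwa [e1] at this
  · intro u hu
    rw [e]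
    have h1 : act hinv V (act hinv V⁻¹ u) ≤ act hinv V⁻¹ u := by
      rw [e1, ← (act hinv V).le_iff_le, e1]; exact hu
    have := h.down _ h1
    rwa [e1] at this

include hinv in
/-- **The chain of length five.** -/
theorem chain_trivial {m n : ZMod 5 → H}
    (hb : ∀ i, (m i)⁻¹ * m (i + 1) = 1 ∨ Ok hinv ((m i)⁻¹ * m (i + 1)) (n i))
    (hc : ∀ i, (n i)⁻¹ * n (i + 1) = 1 ∨ Ok hinv ((n i)⁻¹ * n (i + 1)) (m (i + 1))⁻¹)
    (hb' : ∃ i, Ok hinv ((m i)⁻¹ * m (i + 1)) (n i))
    (hc' : ∃ i, Ok hinv ((n i)⁻¹ * n (i + 1)) (m (i + 1))⁻¹) (i : ZMod 5) :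
    (m i)⁻¹ * m (i + 1) = 1 ∧ (n i)⁻¹ * n (i + 1) = 1 := by
  set κ : ℕ → ZMod 5 := fun j => -(j : ZMod 5) with hκ
  have κs : ∀ j, κ (j + 1) + 1 = κ j := by
    intro j; simp only [hκ]; push_cast; ring
  have κ5 : ∀ j, κ (j + 5) = κ j := by
    intro j
    have : ((5 : ℕ) : ZMod 5) = 0 := ZMod.natCast_self 5
    simp only [hκ, Nat.cast_add]
    rw [this, add_zero]
  have κsurj : ∀ i : ZMod 5, ∃ j, κ j = i := by
    intro i
    refine ⟨(-i).val, ?_⟩
    simp only [hκ]
    rw [ZMod.natCast_zmod_val, neg_neg]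
  set x : ℕ → H := fun j => (m (κ j))⁻¹ * m (κ j + 1) with hx
  set v : ℕ → H := fun j => (n (κ j))⁻¹ * n (κ j + 1) with hv
  set f : ℕ → H := fun j => n (κ j) * (x j)⁻¹ with hf
  set g : ℕ → H := fun j => (m (κ j + 1))⁻¹ * (v j)⁻¹ with hg
  set w : ℕ → H := fun j => (x j * v j)⁻¹ with hw
  have vcomm : ∀ j, v j * (m (κ j + 1))⁻¹ = (m (κ j + 1))⁻¹ * v j := by
    intro j
    rcases hc (κ j) with h1 | h1
    · have : v j = 1 := h1
      rw [this]; group
    · exact h1.comm
  have C : Chn (fun j => act hinv (x j)) (fun j => act hinv (v j)) (fun j => act hinv (w j))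
      (fun j => act hinv (f j)) (fun j => act hinv (g j)) := by
    refine ⟨?_, ?_, ?_, ?_⟩
    · intro j
      refine ⟨?_, ?_, ?_⟩
      · intro u
        rw [← act_mul, ← act_mul]
        have e0 : x j * v j * w j = 1 := by simp only [hw]; group
        rw [e0, act_one]
      · rcases hb (κ j) with h1 | h1
        · right
          intro u
          have : x j = 1 := h1
          rw [this, act_one]
        · left; exact h1.follows
      · rcases hc (κ j) with h1 | h1
        · right
          intro u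
          have : v j = 1 := h1
          rw [this, act_one]
        · left; exact h1.follows
    · intro j y
      simp only [← act_inv, ← act_mul]
      congr 1
      have e1 : (x (j + 1))⁻¹ * (f (j + 1))⁻¹ = (n (κ (j + 1)))⁻¹ := by
        simp only [hf]; group
      have e2 : (x j)⁻¹ * (f j)⁻¹ = (n (κ j))⁻¹ := by simp only [hf]; group
      have e3 : (v (j + 1))⁻¹ = (n (κ j))⁻¹ * n (κ (j + 1)) := by
        simp only [hv]; rw [κs]; group
      have e4 : g (j + 1) = (m (κ j))⁻¹ * (v (j + 1))⁻¹ := by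
        simp only [hg]; rw [κs]
      have e5 : (w j)⁻¹ * (g j) = (m (κ j))⁻¹ := by
        simp only [hw, hg, inv_inv]
        calc x j * v j * ((m (κ j + 1))⁻¹ * (v j)⁻¹)
            = x j * (v j * (m (κ j + 1))⁻¹) * (v j)⁻¹ := by group
          _ = x j * (m (κ j + 1))⁻¹ := by rw [vcomm]; group
          _ = (m (κ j))⁻¹ := by simp only [hx]; group
      have e6 : g (j + 1) * ((x (j + 1))⁻¹ * (f (j + 1))⁻¹) =
          (w j)⁻¹ * (g j * ((x j)⁻¹ * (f j)⁻¹)) := by
        rw [e1, e2, e4, e3, ← mul_assoc (w j)⁻¹, e5]; group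
      rw [e6]
    · intro j y
      simp only [← act_inv, ← act_mul]
      congr 1
      have e1 : w (j + 1) * (f (j + 1))⁻¹ = (x j)⁻¹ * (f j)⁻¹ := by
        simp only [hw, hf, hv, mul_inv_rev, inv_inv]
        rw [κs]
        simp only [hx]
        group
      rw [e1]
    · intro j y
      simp only [← act_inv, ← act_mul]
      congr 1
      have e1 : (v (j + 1))⁻¹ * (g (j + 1))⁻¹ = (v j)⁻¹ * ((g j)⁻¹ * (x j)⁻¹) := by
        simp only [hg, mul_inv_rev, inv_inv]
        rw [κs]
        simp only [hx]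
        group
      rw [e1]
  have P : Per (fun j => act hinv (x j)) (fun j => act hinv (v j)) (fun j => act hinv (w j))
      (fun j => act hinv (f j)) (fun j => act hinv (g j)) := by
    have x5 : ∀ j, x (j + 5) = x j := fun j => by simp only [hx, κ5]
    have v5 : ∀ j, v (j + 5) = v j := fun j => by simp only [hv, κ5]
    refine ⟨?_, ?_, ?_, ?_, ?_⟩ <;> intro j
    · simp only [x5]
    · simp only [v5]
    · simp only [hw, x5, v5]
    · simp only [hf, x5, κ5]
    · simp only [hg, v5, κ5]
  have U : Unc (fun j => act hinv (x j)) (fun j => act hinv (v j)) (fun j => act hinv (f j))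
      (fun j => act hinv (g j)) := by
    obtain ⟨i1, h1⟩ := hb'
    obtain ⟨i2, h2⟩ := hc'
    obtain ⟨j1, rfl⟩ := κsurj i1
    obtain ⟨j2, rfl⟩ := κsurj i2
    exact ⟨⟨j1, h1.follows⟩, ⟨j2, h2.follows⟩⟩
  obtain ⟨j, rfl⟩ := κsurj i
  constructor
  · apply eq_one_of_act hinv
    intro y
    exact (C.fixed P U j y).1
  · apply eq_one_of_act hinv
    intro y
    exact (C.fixed P U j y).2

end act

end Pool.Agent.Helper35.LS
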