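import Pool.Agent.Helper35.LS.Tan
import Pool.Agent.Helper35.LS.Ord

set_option autoImplicit false

/-!
# Alternating tangles and smoothings with relators, and left-ordered groups
-/

namespace Pool.Agent.Helper35.LS

open Pool.Agent.W705.Borr Pool.Agent.Y479.LS Pool.Agent.TH821.Hex
open Pool.Agent.TH821.Chain (act_inv)

section act
variable {H : Type*} [Group H] [LinearOrder H] (hinv : ∀ a b c : H, a ≤ b ↔ c * a ≤ c * b)

/-- The action on the lower sets. -/
noncomputable def rho : H →* Aut (LowerSet H) where
  toFun := act hinv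
  map_one' := Aut.ext' (act_one hinv)
  map_mul' := fun a b => Aut.ext' (act_mul hinv a b)

/-- A tangle in a left-ordered group. -/
theorem ok_of_rep {T : Tangle} {w : T.W → H} {b : T.B → H} (h : T.Rep w b)
    (hadj : Adj T.w₁ T.w₂ T.west T.east)
    (hc : ((w T.west)⁻¹ * w T.east) * ((b T.north)⁻¹ * b T.south) =
      ((b T.north)⁻¹ * b T.south) * ((w T.west)⁻¹ * w T.east)) :
    Ok hinv ((w T.west)⁻¹ * w T.east) ((b T.north)⁻¹ * b T.south) := by
  have h1 := h.map (rho hinv)
  have e1 : (rho hinv (w T.west))⁻¹ * rho hinv (w T.east) = rho hinv ((w T.west)⁻¹ * w T.east) := by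
    rw [map_mul, map_inv]
  have e2 : (rho hinv (b T.north))⁻¹ * rho hinv (b T.south) =
      rho hinv ((b T.north)⁻¹ * b T.south) := by
    rw [map_mul, map_inv]
  refine ⟨hc, ?_, ?_⟩
  · intro u hu
    have := up h1 hadj u
    rw [e1, e2] at this
    exact this hu
  · intro u hu
    have := down h1 hadj u
    rw [e1, e2] at this
    exact this hu

include hinv in
/-- If `west`, `east` and `north` are trivial then everything is. -/
theorem triv_of_rep {T : Tangle} {w : T.W → H} {b : T.B → H} (h : T.Rep w b)
    (hw : w T.west = 1) (he : w T.east = 1) (hn : b T.north = 1) :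
    (∀ v, w v = 1) ∧ ∀ v, b v = 1 := by
  have h1 := h.map (rho hinv)
  have key : ∀ u : LowerSet H, (∀ v, rho hinv (w v) u = u) ∧ ∀ v, rho hinv (b v) u = u := by
    intro u
    have h2 : rho hinv (w T.west) u = rho hinv (w T.east) u := by rw [hw, he]
    obtain ⟨h3, h4⟩ := Tangle.fix h1 h2
    constructor
    · intro v; rw [h3 v, hw, map_one]; rfl
    · intro v; rw [h4 v, hn, map_one]; rfl
  exact ⟨fun v => eq_one_of_act hinv _ fun u => (key u).1 v,
    fun v => eq_one_of_act hinv _ fun u => (key u).2 v⟩

/-- An `Ok` pair with `V = 1`. -/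
theorem Ok.one {J : H} (h : Ok hinv 1 J) : J = 1 := by
  apply eq_one_of_act hinv
  intro u
  have e : act hinv (1 : H) u = u := act_one hinv u
  have h1 := h.up u (by rw [e])
  have h2 := h.down u (by rw [e])
  rw [e] at h1 h2
  exact le_antisymm h2 h1

end act

end Pool.Agent.Helper35.LS
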