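import Pool.Agent.TH821.HexPeriod

set_option autoImplicit false

/-!
# One stage of a chain in which rows may be cut

`X, V, W` are order automorphisms of a complete linear order with `X V W = 1`.  `F` follows `X`, or
`X` is the identity and `F` is arbitrary; `G` follows `V`, or `V` is the identity and `G` is
arbitrary.  For a point `t` we consider `y = F X t`, `a = G t`, `c = W X t` (before the stage)
and `y`, `a' = W⁻¹ G t`, `c' = t` (after the stage).
-/

namespace Pool.Agent.Helper35.LS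

open Pool.Agent.TH821.Hex

variable {Ω : Type*} [CompleteLinearOrder Ω]

/-- The identity. -/
abbrev one (Ω : Type*) [CompleteLinearOrder Ω] : Ω ≃o Ω := OrderIso.refl Ω

/-- One stage. -/
structure Stg (X V W F G : Ω ≃o Ω) : Prop where
  prod : ∀ v, X (V (W v)) = v
  fX : Follows X F ∨ ∀ v, X v = v
  gV : Follows V G ∨ ∀ v, V v = v

theorem Stg.dual {X V W F G : Ω ≃o Ω} (h : Stg X V W F G) :
    Stg (Ω := Ωᵒᵈ) X.dual V.dual W.dual F.dual G.dual :=
  ⟨fun v => h.prod v, h.fX.imp Follows.dual (fun h v => h v), h.gV.imp Follows.dual (fun h v => h v)⟩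

theorem follows_one (W : Ω ≃o Ω) : Follows W (one Ω) :=
  ⟨fun _ => rfl, fun _ _ => le_rfl, fun _ _ => le_rfl⟩

theorem Stg.stage {X V W F G : Ω ≃o Ω} (h : Stg X V W F G) (h1 : Follows X F)
    (h2 : Follows V G) : Stage X V W F G (one Ω) :=
  ⟨h.prod, h1, h2, follows_one W⟩

section stage
variable {X V W F G : Ω ≃o Ω}

theorem Stg.vt (h : Stg X V W F G) (t : Ω) : V (W (X t)) = t := X.injective (h.prod (X t))

theorem Stg.symmW (h : Stg X V W F G) (v : Ω) : W.symm v = X (V v) := by
  have := h.prod (W.symm v)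
  rw [W.apply_symm_apply] at this
  exact this.symm

theorem Stg.v_down_iff (h : Stg X V W F G) (t : Ω) : V t < t ↔ t < W (X t) := by
  rw [← V.lt_iff_lt (x := t) (y := W (X t)), h.vt]

theorem Stg.v_up_iff (h : Stg X V W F G) (t : Ω) : t < V t ↔ W (X t) < t := by
  rw [← V.lt_iff_lt (x := W (X t)) (y := t), h.vt]

/-- The sector before the stage. -/
def Bef (X W F G : Ω ≃o Ω) (m : ℕ) (t : Ω) : Prop := Sec m (G t) (W (X t)) (F (X t))

/-- The sector after the stage. -/
def Aft (X W F G : Ω ≃o Ω) (m : ℕ) (t : Ω) : Prop := Sec m (W.symm (G t)) t (F (X t))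

/-- A stage with `X = 1`. -/
theorem cutX_step (h : Stg X V W F G) (hX : ∀ v, X v = v) {m : ℕ} {t : Ω} (hm : m % 6 ≤ 2)
    (hb : Bef X W F G m t) : Aft X W F G m t ∨ Aft X W F G (m + 1) t := by
  unfold Bef Aft at *
  have e1 : W.symm (G t) = V (G t) := by rw [h.symmW, hX]
  have e2 : V (W t) = t := by have := h.vt t; rwa [hX] at this
  rw [hX] at hb ⊢
  rw [e1]
  rcases h.gV with hg | hV
  · rcases lt_trichotomy t (V t) with hv | hv | hv
    · -- V up at t
      have c1 : W t < t := by rw [← V.lt_iff_lt, e2]; exact hv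
      have c2 : t ≤ G t := hg.up t hv.le
      have c3 : G t < V (G t) := by rw [hg.comm]; exact G.lt_iff_lt.mpr hv
      rcases hb with ⟨k, k1, k2⟩ | ⟨k, k1, k2⟩ | ⟨k, k1, k2⟩ | ⟨k, k1, k2⟩ | ⟨k, k1, k2⟩ | ⟨k, k1, k2⟩
      · exfalso; order
      · exfalso; order
      · rcases le_or_gt (V (G t)) (F t) with d | d
        · exact Or.inl (Or.inr (Or.inr (Or.inl ⟨k, by order, d⟩)))
        · exact Or.inr (Or.inr (Or.inr (Or.inr (Or.inl ⟨by omega, by order, d⟩))))
      · omega
      · omega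
      · omega
    · have c0 : V t = t := hv.symm
      have c1 : W t = t := by rw [← V.injective.eq_iff, e2]; exact hv
      have c2 : G t = t := hg.fix c0
      rw [c1, c2] at hb
      rw [c2, c0]
      exact Or.inl hb
    · have c1 : t < W t := by rw [← V.lt_iff_lt, e2]; exact hv
      have c2 : G t ≤ t := hg.down t hv.le
      have c3 : V (G t) < G t := by rw [hg.comm]; exact G.lt_iff_lt.mpr hv
      rcases hb with ⟨k, k1, k2⟩ | ⟨k, k1, k2⟩ | ⟨k, k1, k2⟩ | ⟨k, k1, k2⟩ | ⟨k, k1, k2⟩ | ⟨k, k1, k2⟩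
      · rcases le_or_gt (F t) t with d | d
        · exact Or.inl (Or.inl ⟨k, by order, d⟩)
        · exact Or.inr (Or.inr (Or.inl ⟨by omega, by order, d⟩))
      · exact Or.inl (Or.inr (Or.inl ⟨k, by order, by order⟩))
      · exfalso; order
      · omega
      · omega
      · omega
  · rw [hV] at e2 ⊢
    rw [e2] at hb
    exact Or.inl hb

/-- A stage with `V = 1`. -/
theorem cutV_step (h : Stg X V W F G) (hV : ∀ v, V v = v) {m : ℕ} {t : Ω} (hm : m % 6 ≤ 2)
    (hb : Bef X W F G m t) : Aft X W F G m t ∨ Aft X W F G (m + 1) t := by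
  unfold Bef Aft at *
  have e1 : W.symm (G t) = X (G t) := by rw [h.symmW, hV]
  have e2 : W (X t) = t := by have := h.vt t; rwa [hV] at this
  rw [e2] at hb
  rw [e1]
  rcases h.fX with hf | hX
  · rcases lt_trichotomy t (X t) with hx | hx | hx
    · have c1 : X t ≤ F (X t) := hf.up _ (X.le_iff_le.mpr hx.le)
      have c2 : ∀ u, t ≤ u → u ≤ F (X t) → u < X u := by
        intro u u1 u2
        by_contra hcon
        rw [not_lt] at hcon
        obtain ⟨r, r1, r2, r3⟩ := fixUD X u1 hx hcon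
        have r4 : X t < r := by
          have := X.lt_iff_lt.mpr r1
          rwa [r3] at this
        have r5 : F (X t) < r := by
          have := F.lt_iff_lt.mpr r4
          rwa [hf.fix r3] at this
        exact absurd (lt_of_le_of_lt u2 r5) (not_lt.mpr r2)
      rcases hb with ⟨k, k1, k2⟩ | ⟨k, k1, k2⟩ | ⟨k, k1, k2⟩ | ⟨k, k1, k2⟩ | ⟨k, k1, k2⟩ | ⟨k, k1, k2⟩
      · exfalso; order
      · have d0 : X (G t) ≤ F (X t) := (X.le_iff_le.mpr k1).trans c1
        rcases le_or_gt (X (G t)) t with d | d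
        · exact Or.inl (Or.inr (Or.inl ⟨k, d, k2⟩))
        · exact Or.inr (Or.inr (Or.inr (Or.inl ⟨by omega, d, d0⟩)))
      · have d0 : G t < X (G t) := c2 _ k1.le k2
        rcases le_or_gt (X (G t)) (F (X t)) with d | d
        · exact Or.inl (Or.inr (Or.inr (Or.inl ⟨k, by order, d⟩)))
        · exact Or.inr (Or.inr (Or.inr (Or.inr (Or.inl ⟨by omega, by order, d⟩))))
      · omega
      · omega
      · omega
    · have c0 : X t = t := hx.symm
      have c1 : F t = t := hf.fix c0
      rw [c0, c1] at hb ⊢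
      rcases hb with ⟨k, k1, k2⟩ | ⟨k, k1, k2⟩ | ⟨k, k1, k2⟩ | ⟨k, k1, k2⟩ | ⟨k, k1, k2⟩ | ⟨k, k1, k2⟩
      · refine Or.inl (Or.inl ⟨k, ?_, k2⟩)
        have := X.lt_iff_lt.mpr k1
        rwa [c0] at this
      · exfalso; order
      · exfalso; order
      · omega
      · omega
      · omega
    · have c1 : F (X t) ≤ X t := hf.down _ (X.le_iff_le.mpr hx.le)
      rcases hb with ⟨k, k1, k2⟩ | ⟨k, k1, k2⟩ | ⟨k, k1, k2⟩ | ⟨k, k1, k2⟩ | ⟨k, k1, k2⟩ | ⟨k, k1, k2⟩
      · refine Or.inl (Or.inl ⟨k, ?_, k2⟩)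
        have d1 : X (G t) < X (F (X t)) := X.lt_iff_lt.mpr k1
        have d2 : X (F (X t)) ≤ F (X t) := by
          rw [hf.comm]
          exact F.le_iff_le.mpr (X.le_iff_le.mpr hx.le)
        exact lt_of_lt_of_le d1 d2
      · exfalso; order
      · exfalso; order
      · omega
      · omega
      · omega
  · rw [hX] at e1 hb ⊢
    rw [hX]
    exact Or.inl hb

end stage

end Pool.Agent.Helper35.LS
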