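import Pool.Agent.Helper35.LS.Chn
import Pool.Agent.Y479.LS.Tangle

set_option autoImplicit false

/-!
# An alternating tangle with a crossing between `west` and `east`, acting on a complete linear order

If `V = w(west)⁻¹ w(east)` and `J = b(north)⁻¹ b(south)`, then `J` moves every point in the direction
of `V`, and at least as far.
-/

namespace Pool.Agent.Helper35.LS

open Pool.Agent.Y479.LS Pool.Agent.TH821.Hex

section tangle

variable {Ω : Type*} [CompleteLinearOrder Ω] {T : Tangle}

/-- Normalisation. -/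
theorem rep_norm {G : Type*} [Group G] {w : T.W → G} {b : T.B → G} (h : T.Rep w b) (g k : G) :
    T.Rep (fun v => g⁻¹ * w v) (fun v => k⁻¹ * b v) := by
  intro c
  have := h c
  calc (k⁻¹ * b (T.b₂ c))⁻¹ * (k⁻¹ * b (T.b₁ c)) = (b (T.b₂ c))⁻¹ * b (T.b₁ c) := by group
    _ = (w (T.w₁ c))⁻¹ * w (T.w₂ c) := this
    _ = _ := by group

theorem up_aux {w : T.W → Aut Ω} {b : T.B → Aut Ω} (h : T.Rep w b) (hw : w T.west = 1)
    (hb : b T.north = 1) (hadj : Adj T.w₁ T.w₂ T.west T.east) (u : Ω)
    (hu : u ≤ w T.east u) : w T.east u ≤ b T.south u := by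
  have := T.finW
  have := T.finB
  have fixp : ∀ r : Ω, w T.east r = r → ∀ v, b v r = r := by
    intro r hr v
    have h1 : w T.west r = w T.east r := by rw [hw, hr]; rfl
    have h2 := (Tangle.fix h h1).2 v
    rw [h2, hb]; rfl
  rcases hu.eq_or_lt with h0 | h0
  · rw [← h0, fixp u h0.symm]
  · obtain ⟨k, k1, k2⟩ := hadj
    have e1 := h.white k
    rw [k1, k2, hw, inv_one, one_mul] at e1
    have cur : ∀ y : Ω, y ≤ w T.east y → y ≤ b T.south y := by
      intro y hy
      have := T.white.current h.white y (by rw [hw]; exact hy)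
      rwa [hb] at this
    set y := b (cAt T.b₁ T.b₂ k) u with hy
    have y1 : y ≤ b T.south u :=
      T.black.le_second h.black u (by rw [hb]; exact cur u hu) _
    have y2 : u ≤ y := by
      have := T.black.first_le h.black u (by rw [hb]; exact cur u hu) (cAt T.b₁ T.b₂ k)
      rwa [hb] at this
    have y3 : y ≤ w T.east y := by
      by_contra hcon
      rw [not_le] at hcon
      obtain ⟨r, r1, r2, r3⟩ := fixUD (g := (w T.east : Ω ≃o Ω)) y2 h0 hcon.le
      have r4 : y < r := by
        have := (Aut.lt_iff (b (cAt T.b₁ T.b₂ k))).mpr r1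
        rwa [fixp r r3] at this
      exact absurd r2 (not_le.mpr r4)
    have y4 : y ≤ b (cOpp T.b₁ T.b₂ k) y := by
      have := T.black.first_le h.black y (by rw [hb]; exact cur y y3) (cOpp T.b₁ T.b₂ k)
      rwa [hb] at this
    have y5 : w T.east u ≤ y := by
      rw [← e1, Aut.mul_apply, ← hy, ← Aut.le_iff (b (cOpp T.b₁ T.b₂ k)), Aut.self_inv]
      exact y4
    exact y5.trans y1

end tangle

section big

variable {Ω : Type*} [CompleteLinearOrder Ω] {T : Tangle}

theorem up {w : T.W → Aut Ω} {b : T.B → Aut Ω} (h : T.Rep w b)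
    (hadj : Adj T.w₁ T.w₂ T.west T.east) (u : Ω)
    (hu : u ≤ ((w T.west)⁻¹ * w T.east) u) :
    ((w T.west)⁻¹ * w T.east) u ≤ ((b T.north)⁻¹ * b T.south) u :=
  up_aux (rep_norm h (w T.west) (b T.north)) (inv_mul_cancel _) (inv_mul_cancel _) hadj u hu

theorem down {w : T.W → Aut Ω} {b : T.B → Aut Ω} (h : T.Rep w b)
    (hadj : Adj T.w₁ T.w₂ T.west T.east) (u : Ω)
    (hu : ((w T.west)⁻¹ * w T.east) u ≤ u) :
    ((b T.north)⁻¹ * b T.south) u ≤ ((w T.west)⁻¹ * w T.east) u := by
  have h1 := h.map (Aut.dual (X := Ω))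
  exact up (Ω := Ωᵒᵈ) h1 hadj (OrderDual.toDual u) hu

/-- `J V⁻¹` follows `V`. -/
theorem follows {V J : Ω ≃o Ω} (hc : ∀ u, V (J u) = J (V u)) (hup : ∀ u, u ≤ V u → V u ≤ J u)
    (hdown : ∀ u, V u ≤ u → J u ≤ V u) : Follows V (V.symm.trans J) := by
  have e : ∀ u, (V.symm.trans J) u = J (V.symm u) := fun u => rfl
  have e2 : ∀ u, J (V.symm u) = V.symm (J u) := by
    intro u
    rw [← V.injective.eq_iff, hc, V.apply_symm_apply, V.apply_symm_apply]
  refine ⟨?_, ?_, ?_⟩
  · intro u
    rw [e, e, hc, V.apply_symm_apply, V.symm_apply_apply]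
  · intro u hu
    rw [e]
    have h1 : V.symm u ≤ u := (symm_le_iff' V).mpr hu
    have := hup (V.symm u) (by rw [V.apply_symm_apply]; exact h1)
    rwa [V.apply_symm_apply] at this
  · intro u hu
    rw [e]
    have h1 : u ≤ V.symm u := (le_symm_iff V).mpr hu
    have := hdown (V.symm u) (by rw [V.apply_symm_apply]; exact h1)
    rwa [V.apply_symm_apply] at this

end big

end Pool.Agent.Helper35.LS
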